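import Mathlib

set_option autoImplicit false

namespace Pool.Agent.Work.MP_637dc3_nt

open Finset

/-- Pigeonhole: a nonzero integer polynomial of degree at most `n`, with coefficients bounded
by `A`, which is at most `1/(4q)` at `ξ`. -/
lemma exists_small_poly (ξ : ℝ) (n B q A : ℕ) (hB : ∀ i ≤ n, |ξ| ^ i ≤ (B : ℝ)) (hq : 1 ≤ q)
    (hA1 : 1 ≤ A) (hA : 8 * q * (n + 1) * B + 1 ≤ A ^ n) :
    ∃ a : ℕ → ℤ, (∃ i ≤ n, a i ≠ 0) ∧ (∀ i, |a i| ≤ (A : ℤ)) ∧
      |∑ i ∈ range (n + 1), (a i : ℝ) * ξ ^ i| ≤ 1 / (4 * (q : ℝ)) := by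
  classical
  have hq0 : (0 : ℝ) < q := by exact_mod_cast hq
  let V : (Fin (n + 1) → Fin (A + 1)) → ℝ := fun b => ∑ i : Fin (n + 1), ((b i : ℕ) : ℝ) * ξ ^ (i : ℕ)
  let M : ℕ := 4 * q * ((n + 1) * A * B) + 1
  let F : (Fin (n + 1) → Fin (A + 1)) → ℤ := fun b => ⌊4 * (q : ℝ) * V b⌋
  have hV : ∀ b, |V b| ≤ ((n + 1) * A * B : ℕ) := by
    intro b
    calc |V b| ≤ ∑ i : Fin (n + 1), |((b i : ℕ) : ℝ) * ξ ^ (i : ℕ)| := Finset.abs_sum_le_sum_abs _ _
      _ ≤ ∑ i : Fin (n + 1), ((A : ℝ) * B) := by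
        apply Finset.sum_le_sum
        intro i _
        rw [abs_mul, abs_pow, abs_of_nonneg (by positivity : (0 : ℝ) ≤ ((b i : ℕ) : ℝ))]
        have h1 : ((b i : ℕ) : ℝ) ≤ A := by
          have := (b i).is_lt
          exact_mod_cast Nat.lt_succ_iff.mp this
        have h2 := hB i (Nat.lt_succ_iff.mp i.is_lt)
        have h3 : (0 : ℝ) ≤ |ξ| ^ (i : ℕ) := by positivity
        have h4 : (0 : ℝ) ≤ (A : ℝ) := by positivity
        exact mul_le_mul h1 h2 h3 h4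
      _ = ((n + 1) * A * B : ℕ) := by
        simp
        ring
  have hF : ∀ b ∈ (Finset.univ : Finset (Fin (n + 1) → Fin (A + 1))),
      F b ∈ Finset.Icc (-(M : ℤ)) (M : ℤ) := by
    intro b _
    have hb := hV b
    rw [abs_le] at hb
    obtain ⟨hb1, hb2⟩ := hb
    have hM : (M : ℝ) = 4 * (q : ℝ) * (((n + 1) * A * B : ℕ) : ℝ) + 1 := by
      simp only [M]; push_cast; ring
    rw [Finset.mem_Icc]
    constructor
    · apply Int.le_floor.mpr
      push_cast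
      rw [hM]
      nlinarith
    · have h5 : (F b : ℝ) ≤ 4 * (q : ℝ) * V b := Int.floor_le _
      have h6 : (F b : ℝ) ≤ (M : ℝ) := by
        rw [hM]
        nlinarith
      exact_mod_cast h6
  have hcard : (Finset.Icc (-(M : ℤ)) (M : ℤ)).card
      < (Finset.univ : Finset (Fin (n + 1) → Fin (A + 1))).card := by
    rw [Int.card_Icc]
    simp only [Finset.card_univ, Fintype.card_pi, Fintype.card_fin, Finset.prod_const]
    have h1 : ((M : ℤ) + 1 - -(M : ℤ)).toNat = 2 * M + 1 := by omega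
    rw [h1]
    have hB1 : 1 ≤ B := by
      have := hB 0 (Nat.zero_le _)
      rw [pow_zero] at this
      exact_mod_cast this
    have h2 : (A + 1) * (8 * q * (n + 1) * B + 1) ≤ (A + 1) ^ (n + 1) := by
      rw [pow_succ, mul_comm ((A + 1) ^ n)]
      apply Nat.mul_le_mul_left
      exact hA.trans (Nat.pow_le_pow_left (Nat.le_succ A) n)
    have h3 : 1 ≤ q * (n + 1) * B := Nat.mul_pos (Nat.mul_pos hq (Nat.succ_pos n)) hB1
    simp only [M]
    nlinarith [h2, h3]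
  obtain ⟨b, -, c, -, hbc, hFbc⟩ := Finset.exists_ne_map_eq_of_card_lt_of_maps_to hcard hF
  refine ⟨fun i => if h : i < n + 1 then ((b ⟨i, h⟩ : ℕ) : ℤ) - ((c ⟨i, h⟩ : ℕ) : ℤ) else 0, ?_, ?_, ?_⟩
  · obtain ⟨i, hi⟩ := Function.ne_iff.mp hbc
    refine ⟨i, Nat.lt_succ_iff.mp i.is_lt, ?_⟩
    have hlt : (i : ℕ) < n + 1 := i.is_lt
    simp only [hlt, dif_pos]
    intro h
    apply hi
    apply Fin.ext
    have : ((b i : ℕ) : ℤ) = ((c i : ℕ) : ℤ) := by linarith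
    exact_mod_cast this
  · intro i
    by_cases h : i < n + 1
    · simp only [h, dif_pos]
      have h1 := (b ⟨i, h⟩).is_lt
      have h2 := (c ⟨i, h⟩).is_lt
      rw [abs_le]
      constructor <;> omega
    · simp [h]
  · rw [Finset.sum_range]
    have : ∑ i : Fin (n + 1), (((if h : (i : ℕ) < n + 1 then ((b ⟨i, h⟩ : ℕ) : ℤ) - ((c ⟨i, h⟩ : ℕ) : ℤ) else 0 : ℤ)) : ℝ) * ξ ^ (i : ℕ)
        = V b - V c := by
      simp only [V, ← Finset.sum_sub_distrib]
      apply Finset.sum_congr rfl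
      intro i _
      have hlt : (i : ℕ) < n + 1 := i.is_lt
      simp only [hlt, dif_pos]
      push_cast
      ring
    rw [this]
    have h1 : |4 * (q : ℝ) * V b - 4 * (q : ℝ) * V c| < 1 := Int.abs_sub_lt_one_of_floor_eq_floor hFbc
    have h2 : 4 * (q : ℝ) * V b - 4 * (q : ℝ) * V c = (4 * (q : ℝ)) * (V b - V c) := by ring
    rw [h2, abs_mul, abs_of_pos (by positivity : (0 : ℝ) < 4 * (q : ℝ))] at h1
    rw [le_div_iff₀ (by positivity)]
    linarith

end Pool.Agent.Work.MP_637dc3_nt
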