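import Mathlib
import Pool.Agent.Work.MP_637dc3_nt.Basic

set_option autoImplicit false

namespace Pool.Agent.Work.MP_637dc3_nt

open Finset

/-- `q` is an approximation of order `l` for the first `n` powers of `ξ`. -/
def S (ξ : ℝ) (n : ℕ) (l : ℝ) : Set ℕ :=
  {q : ℕ | 0 < q ∧ ∀ j ∈ Finset.Icc 1 n,
    |(q : ℝ) * ξ ^ j - ((round ((q : ℝ) * ξ ^ j) : ℤ) : ℝ)| ≤ (q : ℝ) ^ (-l)}

/-- Core step, finite version: from a good `q` with error `ε` for the powers up to `n`, and a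
size parameter `A` as in the pigeonhole lemma, with `(n+1) A ε` small, get `Q = c q`, `c ≤ A`,
which is good for the powers up to `n+1`. -/
lemma core_step (ξ : ℝ) (n B q A : ℕ) (ε : ℝ) (hn : 1 ≤ n) (hB : ∀ i ≤ n + 1, |ξ| ^ i ≤ (B : ℝ))
    (hq : 1 ≤ q) (hA1 : 1 ≤ A) (hA : 8 * q * (n + 1) * B + 1 ≤ A ^ n)
    (hε0 : 0 ≤ ε)
    (hx : ∀ j, 1 ≤ j → j ≤ n → |(q : ℝ) * ξ ^ j - ((round ((q : ℝ) * ξ ^ j) : ℤ) : ℝ)| ≤ ε)
    (hsmall : ((n : ℝ) + 1) * A * ε ≤ 1 / 2) :
    ∃ c : ℕ, 1 ≤ c ∧ c ≤ A ∧ ∀ j, 1 ≤ j → j ≤ n + 1 →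
      |((c * q : ℕ) : ℝ) * ξ ^ j - ((round (((c * q : ℕ) : ℝ) * ξ ^ j) : ℤ) : ℝ)|
        ≤ ((n : ℝ) + 1) * ((B : ℝ) + 1) * A * ε := by
  classical
  obtain ⟨a, ⟨i0, hi0, hai0⟩, haA, hasmall⟩ := exists_small_poly ξ n B q A
    (fun i hi => hB i (by omega)) hq hA1 hA
  have hq0 : (0 : ℝ) < q := by exact_mod_cast hq
  have hB1 : (1 : ℝ) ≤ B := by
    have := hB 0 (Nat.zero_le _)
    rwa [pow_zero] at this
  -- the integer vector x
  set x : ℕ → ℤ := fun j => round ((q : ℝ) * ξ ^ j) with hxdef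
  have hx0 : x 0 = q := by
    simp [hxdef]
  have hxe : ∀ j, j ≤ n → |(q : ℝ) * ξ ^ j - (x j : ℝ)| ≤ ε := by
    intro j hj
    rcases Nat.eq_zero_or_pos j with h | h
    · subst h
      rw [hx0]
      simpa using hε0
    · exact hx j h hj
  have haA' : ∀ i, |(a i : ℝ)| ≤ (A : ℝ) := by
    intro i
    have := haA i
    exact_mod_cast this
  -- difference bound
  have hdiff : |∑ i ∈ range (n + 1), (a i : ℝ) * ((q : ℝ) * ξ ^ i - (x i : ℝ))|
      ≤ ((n : ℝ) + 1) * A * ε := by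
    calc |∑ i ∈ range (n + 1), (a i : ℝ) * ((q : ℝ) * ξ ^ i - (x i : ℝ))|
        ≤ ∑ i ∈ range (n + 1), |(a i : ℝ) * ((q : ℝ) * ξ ^ i - (x i : ℝ))| :=
          Finset.abs_sum_le_sum_abs _ _
      _ ≤ ∑ i ∈ range (n + 1), (A : ℝ) * ε := by
          apply Finset.sum_le_sum
          intro i hi
          rw [abs_mul]
          have hi' : i ≤ n := Nat.lt_succ_iff.mp (Finset.mem_range.mp hi)
          exact mul_le_mul (haA' i) (hxe i hi') (abs_nonneg _) (by positivity)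
      _ = ((n : ℝ) + 1) * A * ε := by
          simp
          ring
  -- the integer sum vanishes
  have hsplit : ∑ i ∈ range (n + 1), (a i : ℝ) * ((q : ℝ) * ξ ^ i - (x i : ℝ))
      = (q : ℝ) * ∑ i ∈ range (n + 1), (a i : ℝ) * ξ ^ i
        - ((∑ i ∈ range (n + 1), a i * x i : ℤ) : ℝ) := by
    push_cast
    rw [Finset.mul_sum, ← Finset.sum_sub_distrib]
    apply Finset.sum_congr rfl
    intro i _
    ring
  have hqf : |(q : ℝ) * ∑ i ∈ range (n + 1), (a i : ℝ) * ξ ^ i| ≤ 1 / 4 := by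
    rw [abs_mul, abs_of_pos hq0]
    calc (q : ℝ) * |∑ i ∈ range (n + 1), (a i : ℝ) * ξ ^ i| ≤ (q : ℝ) * (1 / (4 * (q : ℝ))) :=
          mul_le_mul_of_nonneg_left hasmall hq0.le
      _ = 1 / 4 := by field_simp
  have hzero : (∑ i ∈ range (n + 1), a i * x i : ℤ) = 0 := by
    rw [← Int.abs_lt_one_iff]
    have h1 : |((∑ i ∈ range (n + 1), a i * x i : ℤ) : ℝ)| < 1 := by
      have h2 : ((∑ i ∈ range (n + 1), a i * x i : ℤ) : ℝ)
          = (q : ℝ) * ∑ i ∈ range (n + 1), (a i : ℝ) * ξ ^ i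
            - ∑ i ∈ range (n + 1), (a i : ℝ) * ((q : ℝ) * ξ ^ i - (x i : ℝ)) := by
        rw [hsplit]; ring
      rw [h2]
      have h3 := abs_sub ((q : ℝ) * ∑ i ∈ range (n + 1), (a i : ℝ) * ξ ^ i)
        (∑ i ∈ range (n + 1), (a i : ℝ) * ((q : ℝ) * ξ ^ i - (x i : ℝ)))
      linarith
    exact_mod_cast h1
  have hqf2 : |(q : ℝ) * ∑ i ∈ range (n + 1), (a i : ℝ) * ξ ^ i| ≤ ((n : ℝ) + 1) * A * ε := by
    rw [hzero] at hsplit
    simp only [Int.cast_zero, sub_zero] at hsplit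
    rw [← hsplit]
    exact hdiff
  -- the true degree
  set e : ℕ := Nat.findGreatest (fun i => a i ≠ 0) n with he
  have hae : a e ≠ 0 := Nat.findGreatest_spec (P := fun i => a i ≠ 0) hi0 hai0
  have hen : e ≤ n := Nat.findGreatest_le n
  have habove : ∀ i, e < i → i ≤ n → a i = 0 := by
    intro i h1 h2
    by_contra h3
    exact Nat.findGreatest_is_greatest (P := fun i => a i ≠ 0) h1 h2 h3
  have htrunc : ∀ g : ℕ → ℝ, ∑ i ∈ range (n + 1), (a i : ℝ) * g i
      = ∑ i ∈ range e, (a i : ℝ) * g i + (a e : ℝ) * g e := by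
    intro g
    rw [← Finset.sum_range_succ]
    symm
    apply Finset.sum_subset
    · intro i hi
      rw [Finset.mem_range] at hi ⊢
      omega
    · intro i hi hi2
      rw [Finset.mem_range] at hi hi2
      rw [habove i (by omega) (by omega)]
      simp
  have he1 : 1 ≤ e := by
    by_contra hcon
    have he0 : e = 0 := by omega
    have h1 := htrunc (fun i => (x i : ℝ))
    rw [he0] at h1
    simp only [Finset.range_zero, Finset.sum_empty, zero_add] at h1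
    have h2 : ((∑ i ∈ range (n + 1), a i * x i : ℤ) : ℝ) = (a 0 : ℝ) * (x 0 : ℝ) := by
      push_cast
      exact h1
    rw [hzero, hx0] at h2
    have h3 : (a 0 : ℝ) * (q : ℝ) = 0 := by
      simpa using h2.symm
    rcases mul_eq_zero.mp h3 with h4 | h4
    · apply hae
      rw [he0]
      exact_mod_cast h4
    · exact absurd h4 (ne_of_gt hq0)
  refine ⟨(a e).natAbs, ?_, ?_, ?_⟩
  · exact Int.natAbs_pos.mpr hae
  · have := haA e
    rw [Int.abs_eq_natAbs] at this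
    exact_mod_cast this
  · intro j hj1 hj2
    -- it suffices to find an integer near a_e q ξ^j
    have key : ∀ z : ℤ, |(a e : ℝ) * q * ξ ^ j - (z : ℝ)| ≤ ((n : ℝ) + 1) * ((B : ℝ) + 1) * A * ε →
        |(((a e).natAbs * q : ℕ) : ℝ) * ξ ^ j
          - ((round ((((a e).natAbs * q : ℕ) : ℝ) * ξ ^ j) : ℤ) : ℝ)|
        ≤ ((n : ℝ) + 1) * ((B : ℝ) + 1) * A * ε := by
      intro z hz
      rcases le_total 0 (a e) with h | h
      · have h1 : (((a e).natAbs * q : ℕ) : ℝ) = (a e : ℝ) * q := by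
          push_cast
          rw [Nat.cast_natAbs, abs_of_nonneg h]
        rw [h1]
        exact (round_le _ z).trans hz
      · have h1 : (((a e).natAbs * q : ℕ) : ℝ) = -(a e : ℝ) * q := by
          push_cast
          rw [Nat.cast_natAbs, abs_of_nonpos h]
          push_cast
          ring
        rw [h1]
        refine (round_le _ (-z)).trans ?_
        have h2 : -(a e : ℝ) * q * ξ ^ j - ((-z : ℤ) : ℝ) = -((a e : ℝ) * q * ξ ^ j - (z : ℝ)) := by
          push_cast; ring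
        rw [h2, abs_neg]
        exact hz
    have hA0 : (0 : ℝ) ≤ A := by positivity
    have hn0 : (0 : ℝ) ≤ n := by positivity
    rcases Nat.lt_or_ge n j with hj | hj
    · -- j = n + 1
      have hjn : j = n + 1 := by omega
      subst hjn
      apply key (-(∑ i ∈ range e, a i * x (n + 1 - e + i)))
      have h1 := htrunc (fun i => ξ ^ i)
      have h2 : (a e : ℝ) * q * ξ ^ (n + 1) - ((-(∑ i ∈ range e, a i * x (n + 1 - e + i)) : ℤ) : ℝ)
          = ξ ^ (n + 1 - e) * ((q : ℝ) * ∑ i ∈ range (n + 1), (a i : ℝ) * ξ ^ i)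
            - ∑ i ∈ range e, (a i : ℝ) * ((q : ℝ) * ξ ^ (n + 1 - e + i)
              - (x (n + 1 - e + i) : ℝ)) := by
        rw [h1]
        have h3 : ξ ^ (n + 1) = ξ ^ (n + 1 - e) * ξ ^ e := by
          rw [← pow_add]; congr 1; omega
        have h4 : ∑ i ∈ range e, (a i : ℝ) * ((q : ℝ) * ξ ^ (n + 1 - e + i)
              - (x (n + 1 - e + i) : ℝ))
            = ξ ^ (n + 1 - e) * ((q : ℝ) * ∑ i ∈ range e, (a i : ℝ) * ξ ^ i)
              - ∑ i ∈ range e, (a i : ℝ) * (x (n + 1 - e + i) : ℝ) := by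
          rw [Finset.mul_sum, Finset.mul_sum, ← Finset.sum_sub_distrib]
          apply Finset.sum_congr rfl
          intro i _
          rw [pow_add]
          ring
        rw [h4, h3]
        push_cast
        ring
      rw [h2]
      have h5 : |ξ ^ (n + 1 - e) * ((q : ℝ) * ∑ i ∈ range (n + 1), (a i : ℝ) * ξ ^ i)|
          ≤ (B : ℝ) * (((n : ℝ) + 1) * A * ε) := by
        rw [abs_mul, abs_pow]
        exact mul_le_mul (hB _ (by omega)) hqf2 (abs_nonneg _) (by positivity)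
      have h6 : |∑ i ∈ range e, (a i : ℝ) * ((q : ℝ) * ξ ^ (n + 1 - e + i)
              - (x (n + 1 - e + i) : ℝ))| ≤ ((n : ℝ) + 1) * A * ε := by
        calc |∑ i ∈ range e, (a i : ℝ) * ((q : ℝ) * ξ ^ (n + 1 - e + i)
              - (x (n + 1 - e + i) : ℝ))|
            ≤ ∑ i ∈ range e, |(a i : ℝ) * ((q : ℝ) * ξ ^ (n + 1 - e + i)
              - (x (n + 1 - e + i) : ℝ))| := Finset.abs_sum_le_sum_abs _ _
          _ ≤ ∑ i ∈ range e, (A : ℝ) * ε := by
              apply Finset.sum_le_sum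
              intro i hi
              rw [Finset.mem_range] at hi
              rw [abs_mul]
              exact mul_le_mul (haA' i) (hxe _ (by omega)) (abs_nonneg _) (by positivity)
          _ = (e : ℝ) * A * ε := by
              simp
              ring
          _ ≤ ((n : ℝ) + 1) * A * ε := by
              have : (e : ℝ) ≤ (n : ℝ) + 1 := by
                have : (e : ℝ) ≤ (n : ℝ) := by exact_mod_cast hen
                linarith
              have h7 : 0 ≤ (A : ℝ) * ε := by positivity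
              nlinarith
      have h8 := abs_sub (ξ ^ (n + 1 - e) * ((q : ℝ) * ∑ i ∈ range (n + 1), (a i : ℝ) * ξ ^ i))
        (∑ i ∈ range e, (a i : ℝ) * ((q : ℝ) * ξ ^ (n + 1 - e + i)
              - (x (n + 1 - e + i) : ℝ)))
      calc _ ≤ _ := h8
        _ ≤ (B : ℝ) * (((n : ℝ) + 1) * A * ε) + ((n : ℝ) + 1) * A * ε := add_le_add h5 h6
        _ = _ := by ring
    · apply key (a e * x j)
      have h1 : (a e : ℝ) * q * ξ ^ j - ((a e * x j : ℤ) : ℝ)
          = (a e : ℝ) * ((q : ℝ) * ξ ^ j - (x j : ℝ)) := by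
        push_cast; ring
      rw [h1, abs_mul]
      calc |(a e : ℝ)| * |(q : ℝ) * ξ ^ j - (x j : ℝ)| ≤ A * ε :=
            mul_le_mul (haA' e) (hxe j hj) (abs_nonneg _) hA0
        _ ≤ ((n : ℝ) + 1) * ((B : ℝ) + 1) * A * ε := by
            have h2 : 1 ≤ ((n : ℝ) + 1) * ((B : ℝ) + 1) := by nlinarith
            have h3 : 0 ≤ (A : ℝ) * ε := by positivity
            nlinarith

/-- One step up: `λ_{n+1} ≥ (n λ_n - 1)/(n+1)`. -/
lemma step_up (ξ : ℝ) (n : ℕ) (l μ : ℝ) (hn : 1 ≤ n) (hinf : (S ξ n l).Infinite)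
    (hμ : μ < ((n : ℝ) * l - 1) / ((n : ℝ) + 1)) : (S ξ (n + 1) μ).Infinite := by
  have hn0 : (0 : ℝ) < n := by exact_mod_cast hn
  rcases le_or_gt μ 0 with hμ0 | hμ0
  · -- trivial range
    apply Set.infinite_of_forall_exists_gt
    intro N
    refine ⟨N + 1, ⟨Nat.succ_pos N, ?_⟩, Nat.lt_succ_self N⟩
    intro j _
    calc _ ≤ (1 / 2 : ℝ) := abs_sub_round _
      _ ≤ 1 := by norm_num
      _ ≤ _ := Real.one_le_rpow (by push_cast; linarith [(Nat.cast_nonneg N : (0 : ℝ) ≤ N)])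
          (by linarith)
  · -- main range
    obtain ⟨B, hBc⟩ : ∃ B : ℕ, ∀ i ≤ n + 1, |ξ| ^ i ≤ (B : ℝ) := by
      obtain ⟨B, hB⟩ := exists_nat_ge ((|ξ| + 1) ^ (n + 1))
      refine ⟨B, fun i hi => ?_⟩
      have h0 : 0 ≤ |ξ| := abs_nonneg ξ
      calc |ξ| ^ i ≤ (|ξ| + 1) ^ i := pow_le_pow_left₀ h0 (by linarith) i
        _ ≤ (|ξ| + 1) ^ (n + 1) := pow_le_pow_right₀ (by linarith) hi
        _ ≤ B := hB
    set K : ℕ := 8 * (n + 1) * B + 1 with hK
    have hK1 : (1 : ℝ) ≤ K := by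
      have : 1 ≤ K := by omega
      exact_mod_cast this
    set C : ℝ := 2 * (K : ℝ) with hC
    have hC1 : 1 ≤ C := by linarith
    set D : ℝ := ((n : ℝ) + 1) * ((B : ℝ) + 1) * C with hD
    have hB0 : (0 : ℝ) ≤ B := Nat.cast_nonneg B
    have hDpos : 0 < D := by positivity
    set γ : ℝ := (l - 1 / n) - μ * (1 + 1 / n) with hγ
    have hγpos : 0 < γ := by
      rw [lt_div_iff₀ (by positivity)] at hμ
      have h1 : γ * n = (n * l - 1) - μ * (n + 1) := by
        rw [hγ]; field_simp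
      have h2 : 0 < γ * n := by rw [h1]; linarith
      exact (mul_pos_iff_of_pos_right hn0).mp h2
    have hγ2 : 0 < l - 1 / n := by
      have : 0 < μ * (1 + 1 / n) := by positivity
      linarith
    -- q large
    have hlim1 : ∀ᶠ x : ℝ in Filter.atTop, 2 * D ≤ x ^ (l - 1 / n) :=
      (tendsto_rpow_atTop hγ2).eventually_ge_atTop (2 * D)
    have hlim2 : ∀ᶠ x : ℝ in Filter.atTop, D * C ^ μ ≤ x ^ γ :=
      (tendsto_rpow_atTop hγpos).eventually_ge_atTop (D * C ^ μ)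
    obtain ⟨q0, hq0⟩ := Filter.eventually_atTop.mp (hlim1.and hlim2)
    obtain ⟨N0, hN0⟩ := exists_nat_ge q0
    apply Set.infinite_of_forall_exists_gt
    intro N
    obtain ⟨q, hqS, hqN⟩ := hinf.exists_gt (max N N0)
    obtain ⟨hqpos, hqx⟩ := hqS
    have hq1 : (1 : ℝ) ≤ q := by exact_mod_cast hqpos
    have hqpos' : (0 : ℝ) < q := by linarith
    have hq_ge : q0 ≤ (q : ℝ) := by
      have : N0 ≤ q := (le_max_right N N0).trans hqN.le
      have : (N0 : ℝ) ≤ q := by exact_mod_cast this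
      linarith
    obtain ⟨hbig1, hbig2⟩ := hq0 q hq_ge
    -- the height parameter
    set A : ℕ := ⌈((K : ℝ) * q) ^ (1 / (n : ℝ))⌉₊ with hA
    have hKq1 : (1 : ℝ) ≤ (K : ℝ) * q := by nlinarith
    have hroot1 : 1 ≤ ((K : ℝ) * q) ^ (1 / (n : ℝ)) :=
      Real.one_le_rpow hKq1 (by positivity)
    have hAge : ((K : ℝ) * q) ^ (1 / (n : ℝ)) ≤ A := Nat.le_ceil _
    have hA1 : 1 ≤ A := by
      have : (1 : ℝ) ≤ A := hroot1.trans hAge
      exact_mod_cast this
    have hAn : 8 * q * (n + 1) * B + 1 ≤ A ^ n := by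
      have h1 : (K : ℝ) * q ≤ (A : ℝ) ^ n := by
        calc (K : ℝ) * q = (((K : ℝ) * q) ^ (1 / (n : ℝ))) ^ n := by
              rw [← Real.rpow_natCast, ← Real.rpow_mul (by positivity)]
              rw [one_div, inv_mul_cancel₀ hn0.ne', Real.rpow_one]
          _ ≤ (A : ℝ) ^ n := pow_le_pow_left₀ (by positivity) hAge n
      have h2 : K * q ≤ A ^ n := by exact_mod_cast h1
      calc 8 * q * (n + 1) * B + 1 ≤ K * q := by
            rw [hK]; nlinarith
        _ ≤ A ^ n := h2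
    have hAle : (A : ℝ) ≤ C * (q : ℝ) ^ (1 / (n : ℝ)) := by
      have h1 : (A : ℝ) < ((K : ℝ) * q) ^ (1 / (n : ℝ)) + 1 := Nat.ceil_lt_add_one (by positivity)
      have h2 : ((K : ℝ) * q) ^ (1 / (n : ℝ)) ≤ (K : ℝ) * (q : ℝ) ^ (1 / (n : ℝ)) := by
        rw [Real.mul_rpow (by positivity) (by positivity)]
        apply mul_le_mul_of_nonneg_right _ (by positivity)
        calc (K : ℝ) ^ (1 / (n : ℝ)) ≤ (K : ℝ) ^ (1 : ℝ) := by
              apply Real.rpow_le_rpow_of_exponent_le hK1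
              rw [div_le_one hn0]
              exact_mod_cast hn
          _ = K := Real.rpow_one _
      rw [hC]
      linarith
    set ε : ℝ := (q : ℝ) ^ (-l) with hε
    have hε0 : 0 < ε := Real.rpow_pos_of_pos hqpos' _
    have hDε : ((n : ℝ) + 1) * ((B : ℝ) + 1) * A * ε ≤ D * (q : ℝ) ^ (1 / (n : ℝ) - l) := by
      have h1 : (q : ℝ) ^ (1 / (n : ℝ) - l) = (q : ℝ) ^ (1 / (n : ℝ)) * ε := by
        rw [hε, ← Real.rpow_add hqpos']
        congr 1
      rw [h1, hD]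
      have h2 : (A : ℝ) * ε ≤ C * (q : ℝ) ^ (1 / (n : ℝ)) * ε :=
        mul_le_mul_of_nonneg_right hAle hε0.le
      have h3 : 0 ≤ ((n : ℝ) + 1) * ((B : ℝ) + 1) := by positivity
      nlinarith [mul_le_mul_of_nonneg_left h2 h3]
    have hinv : (q : ℝ) ^ (1 / (n : ℝ) - l) = ((q : ℝ) ^ (l - 1 / (n : ℝ)))⁻¹ := by
      rw [← Real.rpow_neg hqpos'.le]
      congr 1
      ring
    have hsmall : ((n : ℝ) + 1) * A * ε ≤ 1 / 2 := by
      have h1 : ((n : ℝ) + 1) * A * ε ≤ ((n : ℝ) + 1) * ((B : ℝ) + 1) * A * ε := by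
        have h2 : 0 ≤ ((n : ℝ) + 1) * A * ε * B := by positivity
        nlinarith
      have h2 : D * (q : ℝ) ^ (1 / (n : ℝ) - l) ≤ 1 / 2 := by
        rw [hinv, ← div_eq_mul_inv, div_le_iff₀ (by positivity)]
        linarith
      linarith
    obtain ⟨c, hc1, hcA, hc⟩ := core_step ξ n B q A ε hn hBc hqpos hA1 hAn hε0.le
      (fun j h1 h2 => hqx j (Finset.mem_Icc.mpr ⟨h1, h2⟩)) hsmall
    refine ⟨c * q, ⟨Nat.mul_pos hc1 hqpos, ?_⟩, ?_⟩
    · intro j hj
      rw [Finset.mem_Icc] at hj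
      refine (hc j hj.1 hj.2).trans (hDε.trans ?_)
      -- D q^(1/n - l) ≤ (c q)^(-μ)
      have hcq : ((c * q : ℕ) : ℝ) ≤ C * (q : ℝ) ^ (1 + 1 / (n : ℝ)) := by
        push_cast
        have h1 : (c : ℝ) ≤ A := by exact_mod_cast hcA
        have h2 : (q : ℝ) ^ (1 + 1 / (n : ℝ)) = q * (q : ℝ) ^ (1 / (n : ℝ)) := by
          rw [Real.rpow_add hqpos', Real.rpow_one]
        rw [h2]
        have h3 : (c : ℝ) ≤ C * (q : ℝ) ^ (1 / (n : ℝ)) := h1.trans hAle
        nlinarith [mul_le_mul_of_nonneg_right h3 hqpos'.le]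
      have hcqpos : (0 : ℝ) < ((c * q : ℕ) : ℝ) := by
        have : 0 < c * q := Nat.mul_pos hc1 hqpos
        exact_mod_cast this
      have h4 : (C * (q : ℝ) ^ (1 + 1 / (n : ℝ))) ^ (-μ) ≤ ((c * q : ℕ) : ℝ) ^ (-μ) :=
        Real.rpow_le_rpow_of_nonpos hcqpos hcq (by linarith)
      refine le_trans ?_ h4
      rw [Real.mul_rpow (by positivity) (by positivity), ← Real.rpow_mul hqpos'.le]
      have h5 : (q : ℝ) ^ (1 / (n : ℝ) - l)
          = (q : ℝ) ^ ((1 + 1 / (n : ℝ)) * (-μ)) * ((q : ℝ) ^ γ)⁻¹ := by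
        rw [← Real.rpow_neg hqpos'.le, ← Real.rpow_add hqpos']
        congr 1
        rw [hγ]; ring
      rw [h5, Real.rpow_neg (by positivity : 0 ≤ C)]
      have h6 : 0 < (q : ℝ) ^ ((1 + 1 / (n : ℝ)) * (-μ)) := Real.rpow_pos_of_pos hqpos' _
      have h7 : 0 < (q : ℝ) ^ γ := Real.rpow_pos_of_pos hqpos' _
      have h8 : 0 < C ^ μ := Real.rpow_pos_of_pos (by linarith) _
      have h9 : D * ((q : ℝ) ^ γ)⁻¹ ≤ (C ^ μ)⁻¹ := by
        rw [← div_eq_mul_inv, div_le_iff₀ h7, inv_mul_eq_div, le_div_iff₀ h8]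
        exact hbig2
      calc D * ((q : ℝ) ^ ((1 + 1 / (n : ℝ)) * (-μ)) * ((q : ℝ) ^ γ)⁻¹)
          = (D * ((q : ℝ) ^ γ)⁻¹) * (q : ℝ) ^ ((1 + 1 / (n : ℝ)) * (-μ)) := by ring
        _ ≤ (C ^ μ)⁻¹ * (q : ℝ) ^ ((1 + 1 / (n : ℝ)) * (-μ)) :=
            mul_le_mul_of_nonneg_right h9 h6.le
    · calc N ≤ max N N0 := le_max_left _ _
        _ < q := hqN
        _ = 1 * q := (one_mul q).symm
        _ ≤ c * q := Nat.mul_le_mul_right q hc1

/-- The full inequality by induction on `m`. -/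
lemma main (n : ℕ) (hn : 1 ≤ n) (ξ : ℝ) (l : ℝ) (hinf : (S ξ n l).Infinite) :
    ∀ m : ℕ, n ≤ m → ∀ μ : ℝ, μ < ((n : ℝ) * l - (m : ℝ) + (n : ℝ)) / (m : ℝ) →
      (S ξ m μ).Infinite := by
  intro m hm
  induction m, hm using Nat.le_induction with
  | base =>
    intro μ hμ
    have hn0 : (0 : ℝ) < n := by exact_mod_cast hn
    have hμl : μ < l := by
      rw [lt_div_iff₀ hn0] at hμ
      nlinarith
    refine hinf.mono ?_
    rintro q ⟨hq, hqx⟩
    refine ⟨hq, fun j hj => (hqx j hj).trans ?_⟩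
    apply Real.rpow_le_rpow_of_exponent_le
    · exact_mod_cast hq
    · linarith
  | succ m hm ih =>
    intro μ hμ
    have hm1 : 1 ≤ m := hn.trans hm
    have hm0 : (0 : ℝ) < m := by exact_mod_cast hm1
    push_cast at hμ
    rw [lt_div_iff₀ (by positivity)] at hμ
    -- choose μ' between
    have h1 : (μ * ((m : ℝ) + 1) + 1) / m < ((n : ℝ) * l - (m : ℝ) + (n : ℝ)) / (m : ℝ) := by
      rw [div_lt_div_iff_of_pos_right hm0]
      linarith
    obtain ⟨μ', hμ'1, hμ'2⟩ := exists_between h1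
    apply step_up ξ m μ' μ hm1 (ih μ' hμ'2)
    rw [lt_div_iff₀ (by positivity)]
    rw [div_lt_iff₀ hm0] at hμ'1
    linarith

end Pool.Agent.Work.MP_637dc3_nt
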