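import Mathlib
import Pool.Agent.Work.MP_637dc3_nt.Step

set_option autoImplicit false

/-!
# Transfer from the first `n` to the first `n + k` powers with one polynomial
-/

namespace Pool.Agent.Work.MP_637dc3_nt

open Finset

/-- An integer polynomial of degree at most `n` and height at most `H` that is small at `ξ`
annihilates a good rational point, is not constant, and is even smaller at `ξ`. -/
lemma annihilate (ξ : ℝ) (n q : ℕ) (H ε : ℝ) (a : ℕ → ℤ) (hq : 1 ≤ q)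
    (hε0 : 0 ≤ ε) (ha : ∃ i ≤ n, a i ≠ 0) (haH : ∀ i, |(a i : ℝ)| ≤ H)
    (hasmall : |∑ i ∈ range (n + 1), (a i : ℝ) * ξ ^ i| ≤ 1 / (4 * (q : ℝ)))
    (hx : ∀ j, 1 ≤ j → j ≤ n → |(q : ℝ) * ξ ^ j - ((round ((q : ℝ) * ξ ^ j) : ℤ) : ℝ)| ≤ ε)
    (hsmall : ((n : ℝ) + 1) * H * ε ≤ 1 / 2) :
    ∃ e : ℕ, 1 ≤ e ∧ e ≤ n ∧ a e ≠ 0 ∧ (∀ i, e < i → i ≤ n → a i = 0) ∧
      |(q : ℝ) * ∑ i ∈ range (n + 1), (a i : ℝ) * ξ ^ i| ≤ ((n : ℝ) + 1) * H * ε := by
  classical
  obtain ⟨i0, hi0, hai0⟩ := ha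
  have hq0 : (0 : ℝ) < q := by exact_mod_cast hq
  have hH0 : 0 ≤ H := (abs_nonneg _).trans (haH 0)
  set x : ℕ → ℤ := fun j => round ((q : ℝ) * ξ ^ j) with hxdef
  have hx0 : x 0 = q := by
    simp [hxdef]
  have hxe : ∀ j, j ≤ n → |(q : ℝ) * ξ ^ j - (x j : ℝ)| ≤ ε := by
    intro j hj
    rcases Nat.eq_zero_or_pos j with h | h
    · subst h
      rw [hx0]
      simpa using hε0
    · exact hx j h hj
  have hdiff : |∑ i ∈ range (n + 1), (a i : ℝ) * ((q : ℝ) * ξ ^ i - (x i : ℝ))|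
      ≤ ((n : ℝ) + 1) * H * ε := by
    calc |∑ i ∈ range (n + 1), (a i : ℝ) * ((q : ℝ) * ξ ^ i - (x i : ℝ))|
        ≤ ∑ i ∈ range (n + 1), |(a i : ℝ) * ((q : ℝ) * ξ ^ i - (x i : ℝ))| :=
          Finset.abs_sum_le_sum_abs _ _
      _ ≤ ∑ i ∈ range (n + 1), H * ε := by
          apply Finset.sum_le_sum
          intro i hi
          rw [abs_mul]
          have hi' : i ≤ n := Nat.lt_succ_iff.mp (Finset.mem_range.mp hi)
          exact mul_le_mul (haH i) (hxe i hi') (abs_nonneg _) hH0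
      _ = ((n : ℝ) + 1) * H * ε := by
          simp
          ring
  have hsplit : ∑ i ∈ range (n + 1), (a i : ℝ) * ((q : ℝ) * ξ ^ i - (x i : ℝ))
      = (q : ℝ) * ∑ i ∈ range (n + 1), (a i : ℝ) * ξ ^ i
        - ((∑ i ∈ range (n + 1), a i * x i : ℤ) : ℝ) := by
    push_cast
    rw [Finset.mul_sum, ← Finset.sum_sub_distrib]
    apply Finset.sum_congr rfl
    intro i _
    ring
  have hqf : |(q : ℝ) * ∑ i ∈ range (n + 1), (a i : ℝ) * ξ ^ i| ≤ 1 / 4 := by
    rw [abs_mul, abs_of_pos hq0]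
    calc (q : ℝ) * |∑ i ∈ range (n + 1), (a i : ℝ) * ξ ^ i| ≤ (q : ℝ) * (1 / (4 * (q : ℝ))) :=
          mul_le_mul_of_nonneg_left hasmall hq0.le
      _ = 1 / 4 := by field_simp
  have hzero : (∑ i ∈ range (n + 1), a i * x i : ℤ) = 0 := by
    rw [← Int.abs_lt_one_iff]
    have h1 : |((∑ i ∈ range (n + 1), a i * x i : ℤ) : ℝ)| < 1 := by
      have h2 : ((∑ i ∈ range (n + 1), a i * x i : ℤ) : ℝ)
          = (q : ℝ) * ∑ i ∈ range (n + 1), (a i : ℝ) * ξ ^ i
            - ∑ i ∈ range (n + 1), (a i : ℝ) * ((q : ℝ) * ξ ^ i - (x i : ℝ)) := by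
        rw [hsplit]; ring
      rw [h2]
      have h3 := abs_sub ((q : ℝ) * ∑ i ∈ range (n + 1), (a i : ℝ) * ξ ^ i)
        (∑ i ∈ range (n + 1), (a i : ℝ) * ((q : ℝ) * ξ ^ i - (x i : ℝ)))
      linarith
    exact_mod_cast h1
  have hqf2 : |(q : ℝ) * ∑ i ∈ range (n + 1), (a i : ℝ) * ξ ^ i| ≤ ((n : ℝ) + 1) * H * ε := by
    rw [hzero] at hsplit
    simp only [Int.cast_zero, sub_zero] at hsplit
    rw [← hsplit]
    exact hdiff
  set e : ℕ := Nat.findGreatest (fun i => a i ≠ 0) n with he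
  have hae : a e ≠ 0 := Nat.findGreatest_spec (P := fun i => a i ≠ 0) hi0 hai0
  have hen : e ≤ n := Nat.findGreatest_le n
  have habove : ∀ i, e < i → i ≤ n → a i = 0 := by
    intro i h1 h2
    by_contra h3
    exact Nat.findGreatest_is_greatest (P := fun i => a i ≠ 0) h1 h2 h3
  refine ⟨e, ?_, hen, hae, habove, hqf2⟩
  by_contra hcon
  have he0 : e = 0 := by omega
  have h1 : (∑ i ∈ range (n + 1), a i * x i : ℤ) = a 0 * x 0 := by
    apply Finset.sum_eq_single_of_mem 0 (by simp)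
    intro i hi hi0
    rw [habove i (by omega) (Nat.lt_succ_iff.mp (Finset.mem_range.mp hi))]
    simp
  rw [hzero, hx0] at h1
  rcases mul_eq_zero.mp h1.symm with h4 | h4
  · apply hae
    rw [he0]
    exact h4
  · have : (q : ℤ) ≠ 0 := by
      have : (0 : ℤ) < q := by exact_mod_cast hq
      exact ne_of_gt this
    exact this h4

/-- Iterating the recursion given by one polynomial: `a_e ^ k * q` is good for the powers up to
`n + k`. -/
lemma iterate (ξ : ℝ) (n q e : ℕ) (B H ε : ℝ) (a : ℕ → ℤ) (m : ℕ)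
    (hB1 : 1 ≤ B) (hB : ∀ i ≤ m, |ξ| ^ i ≤ B) (hH1 : 1 ≤ H) (hε0 : 0 ≤ ε)
    (he1 : 1 ≤ e) (hen : e ≤ n) (habove : ∀ i, e < i → i ≤ n → a i = 0)
    (haH : ∀ i, |(a i : ℝ)| ≤ H)
    (hP : |(q : ℝ) * ∑ i ∈ range (n + 1), (a i : ℝ) * ξ ^ i| ≤ ((n : ℝ) + 1) * H * ε)
    (hx : ∀ j, j ≤ n → ∃ y : ℤ, |(q : ℝ) * ξ ^ j - (y : ℝ)| ≤ ε) :
    ∀ k : ℕ, n + k ≤ m → ∀ j, j ≤ n + k →
      ∃ y : ℤ, |(a e : ℝ) ^ k * q * ξ ^ j - (y : ℝ)|
        ≤ ((n : ℝ) + 1) ^ k * (B + 1) ^ k * H ^ k * ε := by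
  have hn0 : (0 : ℝ) ≤ n := Nat.cast_nonneg n
  have htrunc : ∑ i ∈ range (n + 1), (a i : ℝ) * ξ ^ i
      = ∑ i ∈ range e, (a i : ℝ) * ξ ^ i + (a e : ℝ) * ξ ^ e := by
    rw [← Finset.sum_range_succ]
    symm
    apply Finset.sum_subset
    · intro i hi
      rw [Finset.mem_range] at hi ⊢
      omega
    · intro i hi hi2
      rw [Finset.mem_range] at hi hi2
      rw [habove i (by omega) (by omega)]
      simp
  intro k
  induction k with
  | zero =>
    intro _ j hj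
    obtain ⟨y, hy⟩ := hx j hj
    exact ⟨y, by simpa using hy⟩
  | succ k ih =>
    intro hkm j hj
    have ih' := ih (by omega)
    set E : ℝ := ((n : ℝ) + 1) ^ k * (B + 1) ^ k * H ^ k * ε with hE
    have hE0 : 0 ≤ E := by positivity
    have hεE : H ^ k * ε ≤ E := by
      have h1 : 1 ≤ ((n : ℝ) + 1) ^ k * (B + 1) ^ k :=
        one_le_mul_of_one_le_of_one_le (one_le_pow₀ (by linarith)) (one_le_pow₀ (by linarith))
      have h2 : 0 ≤ H ^ k * ε := by positivity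
      calc H ^ k * ε = 1 * (H ^ k * ε) := (one_mul _).symm
        _ ≤ ((n : ℝ) + 1) ^ k * (B + 1) ^ k * (H ^ k * ε) :=
            mul_le_mul_of_nonneg_right h1 h2
        _ = E := by rw [hE]; ring
    have hgoal : ((n : ℝ) + 1) ^ (k + 1) * (B + 1) ^ (k + 1) * H ^ (k + 1) * ε
        = ((n : ℝ) + 1) * (B + 1) * (H * E) := by
      rw [hE]; ring
    rw [hgoal]
    choose! y hy using ih'
    rcases Nat.lt_or_ge (n + k) j with hjk | hjk
    · have hj' : j = n + k + 1 := by omega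
      subst hj'
      refine ⟨-(∑ i ∈ range e, a i * y (n + k + 1 - e + i)), ?_⟩
      have h2 : (a e : ℝ) ^ (k + 1) * q * ξ ^ (n + k + 1)
            - ((-(∑ i ∈ range e, a i * y (n + k + 1 - e + i)) : ℤ) : ℝ)
          = ξ ^ (n + k + 1 - e) * ((a e : ℝ) ^ k *
              ((q : ℝ) * ∑ i ∈ range (n + 1), (a i : ℝ) * ξ ^ i))
            - ∑ i ∈ range e, (a i : ℝ) * ((a e : ℝ) ^ k * q * ξ ^ (n + k + 1 - e + i)
              - (y (n + k + 1 - e + i) : ℝ)) := by
        rw [htrunc]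
        have h3 : ξ ^ (n + k + 1) = ξ ^ (n + k + 1 - e) * ξ ^ e := by
          rw [← pow_add]; congr 1; omega
        have h4 : ∑ i ∈ range e, (a i : ℝ) * ((a e : ℝ) ^ k * q * ξ ^ (n + k + 1 - e + i)
              - (y (n + k + 1 - e + i) : ℝ))
            = ξ ^ (n + k + 1 - e) * ((a e : ℝ) ^ k *
                ((q : ℝ) * ∑ i ∈ range e, (a i : ℝ) * ξ ^ i))
              - ∑ i ∈ range e, (a i : ℝ) * (y (n + k + 1 - e + i) : ℝ) := by
          rw [Finset.mul_sum, Finset.mul_sum, Finset.mul_sum, ← Finset.sum_sub_distrib]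
          apply Finset.sum_congr rfl
          intro i _
          rw [pow_add]
          ring
        rw [h4, h3]
        push_cast
        ring
      rw [h2]
      have h5 : |ξ ^ (n + k + 1 - e) * ((a e : ℝ) ^ k *
              ((q : ℝ) * ∑ i ∈ range (n + 1), (a i : ℝ) * ξ ^ i))|
          ≤ B * (H ^ k * (((n : ℝ) + 1) * H * ε)) := by
        rw [abs_mul, abs_pow]
        refine mul_le_mul (hB _ (by omega)) ?_ (abs_nonneg _) (by linarith)
        rw [abs_mul, abs_pow]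
        exact mul_le_mul (pow_le_pow_left₀ (abs_nonneg _) (haH e) k) hP (abs_nonneg _)
          (by positivity)
      have h6 : |∑ i ∈ range e, (a i : ℝ) * ((a e : ℝ) ^ k * q * ξ ^ (n + k + 1 - e + i)
              - (y (n + k + 1 - e + i) : ℝ))| ≤ ((n : ℝ) + 1) * (H * E) := by
        calc |∑ i ∈ range e, (a i : ℝ) * ((a e : ℝ) ^ k * q * ξ ^ (n + k + 1 - e + i)
              - (y (n + k + 1 - e + i) : ℝ))|
            ≤ ∑ i ∈ range e, |(a i : ℝ) * ((a e : ℝ) ^ k * q * ξ ^ (n + k + 1 - e + i)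
              - (y (n + k + 1 - e + i) : ℝ))| := Finset.abs_sum_le_sum_abs _ _
          _ ≤ ∑ i ∈ range e, (H * E) := by
              apply Finset.sum_le_sum
              intro i hi
              rw [Finset.mem_range] at hi
              rw [abs_mul]
              exact mul_le_mul (haH i) (hy _ (by omega)) (abs_nonneg _) (by linarith)
          _ = (e : ℝ) * (H * E) := by
              simp
          _ ≤ ((n : ℝ) + 1) * (H * E) := by
              have h7 : (e : ℝ) ≤ (n : ℝ) := by exact_mod_cast hen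
              have h8 : 0 ≤ H * E := by positivity
              nlinarith
      have h8 := abs_sub (ξ ^ (n + k + 1 - e) * ((a e : ℝ) ^ k *
              ((q : ℝ) * ∑ i ∈ range (n + 1), (a i : ℝ) * ξ ^ i)))
        (∑ i ∈ range e, (a i : ℝ) * ((a e : ℝ) ^ k * q * ξ ^ (n + k + 1 - e + i)
              - (y (n + k + 1 - e + i) : ℝ)))
      have h9 : B * (H ^ k * (((n : ℝ) + 1) * H * ε)) ≤ B * (((n : ℝ) + 1) * (H * E)) := by
        have h10 : H ^ k * (((n : ℝ) + 1) * H * ε) = ((n : ℝ) + 1) * (H * (H ^ k * ε)) := by ring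
        rw [h10]
        have h11 : H * (H ^ k * ε) ≤ H * E := mul_le_mul_of_nonneg_left hεE (by linarith)
        exact mul_le_mul_of_nonneg_left (mul_le_mul_of_nonneg_left h11 (by linarith))
          (by linarith)
      calc _ ≤ _ := h8
        _ ≤ B * (((n : ℝ) + 1) * (H * E)) + ((n : ℝ) + 1) * (H * E) :=
            add_le_add (h5.trans h9) h6
        _ = _ := by ring
    · refine ⟨a e * y j, ?_⟩
      have h1 : (a e : ℝ) ^ (k + 1) * q * ξ ^ j - ((a e * y j : ℤ) : ℝ)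
          = (a e : ℝ) * ((a e : ℝ) ^ k * q * ξ ^ j - (y j : ℝ)) := by
        push_cast; ring
      rw [h1, abs_mul]
      calc |(a e : ℝ)| * |(a e : ℝ) ^ k * q * ξ ^ j - (y j : ℝ)| ≤ H * E :=
            mul_le_mul (haH e) (hy j hjk) (abs_nonneg _) (by linarith)
        _ ≤ ((n : ℝ) + 1) * (B + 1) * (H * E) := by
            have h2 : 1 ≤ ((n : ℝ) + 1) * (B + 1) := by nlinarith
            have h3 : 0 ≤ H * E := by positivity
            nlinarith

/-- `w` is an exponent of uniform approximation by polynomials of degree at most `n`: for all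
large `H` some nonzero integer polynomial of degree at most `n` and height at most `H` is at most
`H ^ (-w)` in absolute value at `ξ`. -/
def Unif (ξ : ℝ) (n : ℕ) (w : ℝ) : Prop :=
  ∃ H₀ : ℝ, ∀ H : ℝ, H₀ ≤ H → ∃ a : ℕ → ℤ, (∃ i ≤ n, a i ≠ 0) ∧ (∀ i, |(a i : ℝ)| ≤ H) ∧
    |∑ i ∈ range (n + 1), (a i : ℝ) * ξ ^ i| ≤ H ^ (-w)

/-- Transfer with a uniform exponent `w` of polynomial approximation:
`λ_{n+k} ≥ (w λ_n - k) / (w + k)`. -/
lemma transfer (ξ : ℝ) (n k : ℕ) (w l μ : ℝ) (hn : 1 ≤ n) (hw : 0 < w) (hU : Unif ξ n w)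
    (hinf : (S ξ n l).Infinite) (hμ : μ < (w * l - k) / (w + k)) :
    (S ξ (n + k) μ).Infinite := by
  have hk0 : (0 : ℝ) ≤ k := Nat.cast_nonneg k
  rcases le_or_gt μ 0 with hμ0 | hμ0
  · -- trivial range
    apply Set.infinite_of_forall_exists_gt
    intro N
    refine ⟨N + 1, ⟨Nat.succ_pos N, ?_⟩, Nat.lt_succ_self N⟩
    intro j _
    calc _ ≤ (1 / 2 : ℝ) := abs_sub_round _
      _ ≤ 1 := by norm_num
      _ ≤ _ := Real.one_le_rpow (by push_cast; linarith [(Nat.cast_nonneg N : (0 : ℝ) ≤ N)])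
          (by linarith)
  · -- main range
    obtain ⟨B, hB1, hBc⟩ : ∃ B : ℝ, 1 ≤ B ∧ ∀ i ≤ n + k, |ξ| ^ i ≤ B := by
      refine ⟨(|ξ| + 1) ^ (n + k), ?_, fun i hi => ?_⟩
      · exact one_le_pow₀ (by linarith [abs_nonneg ξ])
      · have h0 : 0 ≤ |ξ| := abs_nonneg ξ
        calc |ξ| ^ i ≤ (|ξ| + 1) ^ i := pow_le_pow_left₀ h0 (by linarith) i
          _ ≤ (|ξ| + 1) ^ (n + k) := pow_le_pow_right₀ (by linarith) hi
    obtain ⟨H₀, hH₀⟩ := hU
    -- the constant in the height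
    set c : ℝ := (4 : ℝ) ^ (1 / w) with hc
    have hc1 : 1 ≤ c := Real.one_le_rpow (by norm_num) (by positivity)
    set D : ℝ := ((n : ℝ) + 1) ^ k * (B + 1) ^ k * c ^ k with hD
    have hn0 : (0 : ℝ) ≤ n := Nat.cast_nonneg n
    have hDpos : 0 < D := by positivity
    set γ : ℝ := (l - k / w) - μ * (1 + k / w) with hγ
    have hwk : 0 < w + k := by linarith
    have hγpos : 0 < γ := by
      rw [lt_div_iff₀ hwk] at hμ
      have h1 : γ * w = (w * l - k) - μ * (w + k) := by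
        rw [hγ]; field_simp
      have h2 : 0 < γ * w := by rw [h1]; linarith
      exact (mul_pos_iff_of_pos_right hw).mp h2
    have hlw : 0 < l - 1 / w ∨ k = 0 := by
      rcases Nat.eq_zero_or_pos k with h | h
      · exact Or.inr h
      · left
        have hk1 : (1 : ℝ) ≤ k := by exact_mod_cast h
        have h1 : 0 < μ * (1 + k / w) := by positivity
        have h2 : 1 / w ≤ k / w := div_le_div_of_nonneg_right hk1 hw.le
        linarith
    rcases hlw with hlw | hk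
    swap
    · -- `k = 0`
      subst hk
      refine hinf.mono ?_
      rintro q ⟨hq, hqx⟩
      refine ⟨hq, fun j hj => (hqx j hj).trans ?_⟩
      apply Real.rpow_le_rpow_of_exponent_le
      · exact_mod_cast hq
      · have h1 : γ = l - μ := by rw [hγ]; simp
        rw [h1] at hγpos
        linarith
    -- q large
    have hlim1 : ∀ᶠ x : ℝ in Filter.atTop, 2 * (((n : ℝ) + 1) * c) ≤ x ^ (l - 1 / w) :=
      (tendsto_rpow_atTop hlw).eventually_ge_atTop _
    have hlim2 : ∀ᶠ x : ℝ in Filter.atTop, D * (c ^ k) ^ μ ≤ x ^ γ :=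
      (tendsto_rpow_atTop hγpos).eventually_ge_atTop _
    have hlim3 : ∀ᶠ x : ℝ in Filter.atTop, H₀ ≤ x ^ (1 / w) :=
      (tendsto_rpow_atTop (by positivity : 0 < 1 / w)).eventually_ge_atTop _
    obtain ⟨q0, hq0⟩ := Filter.eventually_atTop.mp (hlim1.and (hlim2.and hlim3))
    obtain ⟨N0, hN0⟩ := exists_nat_ge q0
    apply Set.infinite_of_forall_exists_gt
    intro N
    obtain ⟨q, hqS, hqN⟩ := hinf.exists_gt (max N N0)
    obtain ⟨hqpos, hqx⟩ := hqS
    have hq1 : (1 : ℝ) ≤ q := by exact_mod_cast hqpos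
    have hqpos' : (0 : ℝ) < q := by linarith
    have hq_ge : q0 ≤ (q : ℝ) := by
      have : N0 ≤ q := (le_max_right N N0).trans hqN.le
      have : (N0 : ℝ) ≤ q := by exact_mod_cast this
      linarith
    obtain ⟨hbig1, hbig2, hbig3⟩ := hq0 q hq_ge
    -- the height
    set H : ℝ := c * (q : ℝ) ^ (1 / w) with hH
    have hqw1 : 1 ≤ (q : ℝ) ^ (1 / w) := Real.one_le_rpow hq1 (by positivity)
    have hH1 : 1 ≤ H := one_le_mul_of_one_le_of_one_le hc1 hqw1
    have hHH₀ : H₀ ≤ H := by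
      refine hbig3.trans ?_
      rw [hH]
      nlinarith
    have hHw : H ^ (-w) = 1 / (4 * (q : ℝ)) := by
      have h1 : H = (4 * (q : ℝ)) ^ (1 / w) := by
        rw [hH, hc, ← Real.mul_rpow (by norm_num) hqpos'.le]
      rw [h1, ← Real.rpow_mul (by positivity)]
      rw [one_div, mul_neg, inv_mul_cancel₀ hw.ne', Real.rpow_neg (by positivity), Real.rpow_one,
        one_div]
    obtain ⟨a, ha, haH, hasmall⟩ := hH₀ H hHH₀
    rw [hHw] at hasmall
    set ε : ℝ := (q : ℝ) ^ (-l) with hε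
    have hε0 : 0 < ε := Real.rpow_pos_of_pos hqpos' _
    have hsmall : ((n : ℝ) + 1) * H * ε ≤ 1 / 2 := by
      have h1 : ((n : ℝ) + 1) * H * ε = ((n : ℝ) + 1) * c * ((q : ℝ) ^ (l - 1 / w))⁻¹ := by
        rw [← Real.rpow_neg hqpos'.le, hH, hε]
        have h2 : (q : ℝ) ^ (-(l - 1 / w)) = (q : ℝ) ^ (1 / w) * (q : ℝ) ^ (-l) := by
          rw [← Real.rpow_add hqpos']
          congr 1
          ring
        rw [h2]
        ring
      rw [h1, ← div_eq_mul_inv, div_le_iff₀ (Real.rpow_pos_of_pos hqpos' _)]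
      linarith
    obtain ⟨e, he1, hen, hae, habove, hP⟩ := annihilate ξ n q H ε a hqpos hε0.le ha haH hasmall
      (fun j h1 h2 => hqx j (Finset.mem_Icc.mpr ⟨h1, h2⟩)) hsmall
    have hx : ∀ j, j ≤ n → ∃ y : ℤ, |(q : ℝ) * ξ ^ j - (y : ℝ)| ≤ ε := by
      intro j hj
      rcases Nat.eq_zero_or_pos j with h | h
      · subst h
        exact ⟨q, by simpa using hε0.le⟩
      · exact ⟨_, hqx j (Finset.mem_Icc.mpr ⟨h, hj⟩)⟩
    have hit := iterate ξ n q e B H ε a (n + k) hB1 hBc hH1 hε0.le he1 hen habove haH hP hx k le_rfl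
    -- the new denominator
    have hnat : ((((a e).natAbs ^ k * q : ℕ)) : ℝ) = |(a e : ℝ)| ^ k * q := by
      push_cast
      rw [Nat.cast_natAbs]
      push_cast
      ring
    have habs1 : (1 : ℝ) ≤ |(a e : ℝ)| := by
      have h1 : 1 ≤ |a e| := Int.one_le_abs hae
      exact_mod_cast h1
    have hQpos : 0 < (a e).natAbs ^ k * q :=
      Nat.mul_pos (pow_pos (Int.natAbs_pos.mpr hae) k) hqpos
    refine ⟨(a e).natAbs ^ k * q, ⟨hQpos, ?_⟩, ?_⟩
    · intro j hj
      rw [Finset.mem_Icc] at hj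
      obtain ⟨y, hy⟩ := hit j hj.2
      -- pass to the absolute value
      have h1 : |((((a e).natAbs ^ k * q : ℕ)) : ℝ) * ξ ^ j
          - ((round (((((a e).natAbs ^ k * q : ℕ)) : ℝ) * ξ ^ j) : ℤ) : ℝ)|
          ≤ ((n : ℝ) + 1) ^ k * (B + 1) ^ k * H ^ k * ε := by
        rw [hnat, ← abs_pow]
        rcases abs_choice ((a e : ℝ) ^ k) with h | h
        · rw [h]
          exact (round_le _ y).trans hy
        · rw [h]
          refine (round_le _ (-y)).trans ?_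
          have h2 : -(a e : ℝ) ^ k * q * ξ ^ j - ((-y : ℤ) : ℝ)
              = -((a e : ℝ) ^ k * q * ξ ^ j - (y : ℝ)) := by
            push_cast; ring
          rw [h2, abs_neg]
          exact hy
      refine h1.trans ?_
      -- size of the new denominator
      have hQle : ((((a e).natAbs ^ k * q : ℕ)) : ℝ) ≤ c ^ k * (q : ℝ) ^ (1 + k / w) := by
        rw [hnat]
        have h2 : |(a e : ℝ)| ^ k ≤ H ^ k := pow_le_pow_left₀ (abs_nonneg _) (haH e) k
        have h3 : H ^ k = c ^ k * (q : ℝ) ^ (k / w) := by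
          rw [hH, mul_pow, ← Real.rpow_natCast ((q : ℝ) ^ (1 / w)), ← Real.rpow_mul hqpos'.le]
          congr 2
          ring
        have h4 : (q : ℝ) ^ (1 + k / w) = q * (q : ℝ) ^ (k / w) := by
          rw [Real.rpow_add hqpos', Real.rpow_one]
        calc |(a e : ℝ)| ^ k * q ≤ H ^ k * q := mul_le_mul_of_nonneg_right h2 hqpos'.le
          _ = c ^ k * (q : ℝ) ^ (1 + k / w) := by rw [h3, h4]; ring
      have hQpos' : (0 : ℝ) < ((((a e).natAbs ^ k * q : ℕ)) : ℝ) := by exact_mod_cast hQpos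
      have h4 : (c ^ k * (q : ℝ) ^ (1 + k / w)) ^ (-μ)
          ≤ ((((a e).natAbs ^ k * q : ℕ)) : ℝ) ^ (-μ) :=
        Real.rpow_le_rpow_of_nonpos hQpos' hQle (by linarith)
      refine le_trans ?_ h4
      have hck : 0 < c ^ k := by positivity
      rw [Real.mul_rpow hck.le (by positivity), ← Real.rpow_mul hqpos'.le]
      have h5 : ((n : ℝ) + 1) ^ k * (B + 1) ^ k * H ^ k * ε = D * (q : ℝ) ^ (k / w - l) := by
        have h3 : H ^ k = c ^ k * (q : ℝ) ^ (k / w) := by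
          rw [hH, mul_pow, ← Real.rpow_natCast ((q : ℝ) ^ (1 / w)), ← Real.rpow_mul hqpos'.le]
          congr 2
          ring
        have h6 : (q : ℝ) ^ (k / w - l) = (q : ℝ) ^ (k / w) * ε := by
          rw [hε, ← Real.rpow_add hqpos']
          congr 1
        rw [h3, h6, hD]
        ring
      rw [h5]
      have h5' : (q : ℝ) ^ (k / w - l)
          = (q : ℝ) ^ ((1 + k / w) * (-μ)) * ((q : ℝ) ^ γ)⁻¹ := by
        rw [← Real.rpow_neg hqpos'.le, ← Real.rpow_add hqpos']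
        congr 1
        rw [hγ]; ring
      rw [h5', Real.rpow_neg hck.le]
      have h6 : 0 < (q : ℝ) ^ ((1 + k / w) * (-μ)) := Real.rpow_pos_of_pos hqpos' _
      have h7 : 0 < (q : ℝ) ^ γ := Real.rpow_pos_of_pos hqpos' _
      have h8 : 0 < (c ^ k) ^ μ := Real.rpow_pos_of_pos hck _
      have h9 : D * ((q : ℝ) ^ γ)⁻¹ ≤ ((c ^ k) ^ μ)⁻¹ := by
        rw [← div_eq_mul_inv, div_le_iff₀ h7, inv_mul_eq_div, le_div_iff₀ h8]
        exact hbig2
      calc D * ((q : ℝ) ^ ((1 + k / w) * (-μ)) * ((q : ℝ) ^ γ)⁻¹)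
          = (D * ((q : ℝ) ^ γ)⁻¹) * (q : ℝ) ^ ((1 + k / w) * (-μ)) := by ring
        _ ≤ ((c ^ k) ^ μ)⁻¹ * (q : ℝ) ^ ((1 + k / w) * (-μ)) :=
            mul_le_mul_of_nonneg_right h9 h6.le
    · calc N ≤ max N N0 := le_max_left _ _
        _ < q := hqN
        _ = 1 * q := (one_mul q).symm
        _ ≤ (a e).natAbs ^ k * q :=
            Nat.mul_le_mul_right q (Nat.one_le_pow _ _ (Int.natAbs_pos.mpr hae))

/-- Dirichlet: every `w < n` is an exponent of uniform approximation. -/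
lemma unif_of_lt (ξ : ℝ) (n : ℕ) (w : ℝ) (hn : 1 ≤ n) (hw : w < n) : Unif ξ n w := by
  obtain ⟨B, hBc⟩ : ∃ B : ℕ, ∀ i ≤ n, |ξ| ^ i ≤ (B : ℝ) := by
    obtain ⟨B, hB⟩ := exists_nat_ge ((|ξ| + 1) ^ n)
    refine ⟨B, fun i hi => ?_⟩
    have h0 : 0 ≤ |ξ| := abs_nonneg ξ
    calc |ξ| ^ i ≤ (|ξ| + 1) ^ i := pow_le_pow_left₀ h0 (by linarith) i
      _ ≤ (|ξ| + 1) ^ n := pow_le_pow_right₀ (by linarith) hi
      _ ≤ B := hB
  -- `K = 8 (n+1) B`
  set K : ℕ := 8 * (n + 1) * B with hK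
  have hB1 : 1 ≤ B := by
    have := hBc 0 (Nat.zero_le _)
    rw [pow_zero] at this
    exact_mod_cast this
  have hK1 : 1 ≤ K := by
    rw [hK]
    exact Nat.mul_pos (Nat.mul_pos (by norm_num) (Nat.succ_pos n)) hB1
  have hKpos : (0 : ℝ) < K := by exact_mod_cast hK1
  have hnw : 0 < (n : ℝ) - w := by linarith
  have hlim : ∀ᶠ x : ℝ in Filter.atTop, (2 : ℝ) ^ (n + 1) * (K : ℝ) ≤ x ^ ((n : ℝ) - w) :=
    (tendsto_rpow_atTop hnw).eventually_ge_atTop _
  obtain ⟨x0, hx0⟩ := Filter.eventually_atTop.mp hlim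
  refine ⟨max x0 (2 * (K : ℝ) + 2), fun H hH => ?_⟩
  have hHx : x0 ≤ H := (le_max_left _ _).trans hH
  have hHK : 2 * (K : ℝ) + 2 ≤ H := (le_max_right _ _).trans hH
  have hH0 : 0 < H := by linarith
  set A : ℕ := ⌊H⌋₊ with hA
  have hAle : (A : ℝ) ≤ H := Nat.floor_le hH0.le
  have hAge : H / 2 ≤ A := by
    have h1 : H < A + 1 := Nat.lt_floor_add_one H
    linarith
  have hA1 : 1 ≤ A := by
    have : (0 : ℝ) < A := by linarith
    exact_mod_cast this
  have hAn1 : A ≤ A ^ n := Nat.le_self_pow (by omega) A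
  have hAK : K + 1 ≤ A := by
    have : (K : ℝ) + 1 ≤ A := by linarith
    exact_mod_cast this
  set q : ℕ := (A ^ n - 1) / K with hq
  have hq1 : 1 ≤ q := by
    rw [hq, Nat.le_div_iff_mul_le hK1]
    omega
  have hqK : q * K ≤ A ^ n - 1 := Nat.div_mul_le_self _ _
  have hAn0 : 1 ≤ A ^ n := Nat.one_le_pow _ _ hA1
  have hcond : 8 * q * (n + 1) * B + 1 ≤ A ^ n := by
    have h1 : 8 * q * (n + 1) * B = q * K := by rw [hK]; ring
    rw [h1]
    omega
  obtain ⟨a, ha, haA, hasmall⟩ := exists_small_poly ξ n B q A hBc hq1 hA1 hcond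
  refine ⟨a, ha, fun i => ?_, hasmall.trans ?_⟩
  · have h1 : |(a i : ℝ)| ≤ (A : ℝ) := by
      have := haA i
      exact_mod_cast this
    exact h1.trans hAle
  · -- `1 / (4 q) ≤ H ^ (-w)`
    have hq2 : A ^ n ≤ (q + 1) * K := by
      have h1 := Nat.div_add_mod (A ^ n - 1) K
      have h2 := Nat.mod_lt (A ^ n - 1) hK1
      have h3 : K * ((A ^ n - 1) / K) = q * K := by rw [hq, mul_comm]
      have h4 : (q + 1) * K = q * K + K := by ring
      omega
    have hq0 : (0 : ℝ) < q := by exact_mod_cast hq1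
    have h1 : H ^ n ≤ 2 ^ (n + 1) * (K : ℝ) * q := by
      have h2 : (A : ℝ) ^ n ≤ ((q : ℝ) + 1) * K := by exact_mod_cast hq2
      have h3 : (H / 2) ^ n ≤ (A : ℝ) ^ n := pow_le_pow_left₀ (by linarith) hAge n
      have h4 : H ^ n = 2 ^ n * (H / 2) ^ n := by
        rw [← mul_pow]
        congr 1
        ring
      have h5 : ((q : ℝ) + 1) * K ≤ 2 * q * K := by
        have h6 : (1 : ℝ) ≤ q := by exact_mod_cast hq1
        nlinarith
      calc H ^ n = 2 ^ n * (H / 2) ^ n := h4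
        _ ≤ 2 ^ n * (2 * q * K) := by
            apply mul_le_mul_of_nonneg_left _ (by positivity)
            linarith
        _ = 2 ^ (n + 1) * (K : ℝ) * q := by ring
    have h2 : (2 : ℝ) ^ (n + 1) * (K : ℝ) ≤ H ^ ((n : ℝ) - w) := hx0 H hHx
    have h3 : H ^ ((n : ℝ) - w) = H ^ n * H ^ (-w) := by
      rw [sub_eq_add_neg, Real.rpow_add hH0, Real.rpow_natCast]
    have h4 : 0 < H ^ (-w) := Real.rpow_pos_of_pos hH0 _
    have h5 : 0 < H ^ n := by positivity
    rw [div_le_iff₀ (by positivity)]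
    -- `1 ≤ H ^ (-w) * (4 q)`
    have h6 : H ^ n ≤ H ^ n * (H ^ (-w) * q) := by
      calc H ^ n ≤ 2 ^ (n + 1) * (K : ℝ) * q := h1
        _ ≤ (H ^ n * H ^ (-w)) * q := by
            rw [← h3]
            exact mul_le_mul_of_nonneg_right h2 hq0.le
        _ = H ^ n * (H ^ (-w) * q) := by ring
    have h7 : 1 ≤ H ^ (-w) * q := by
      by_contra hcon
      push Not at hcon
      nlinarith
    nlinarith

end Pool.Agent.Work.MP_637dc3_nt
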