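import Mathlib
import Pool.Agent.Work.MP_637dc3_nt.Uniform

/-!
# Transfer inequalities between the exponents of simultaneous approximation

For every transcendental real `ξ` and `1 ≤ n ≤ m` we prove
`λ_m(ξ) ≥ (n λ_n(ξ) - m + n) / m`, and the sharper inequality in which the dimension `n` is
replaced by the uniform exponent `ŵ_n(ξ) ≥ n` of approximation by polynomials.
-/

set_option autoImplicit false

namespace Pool.Agent.Work.MP_637dc3_nt.Lam

open Finset Pool.Agent.Work.MP_637dc3_nt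

/-- The solutions `(x, y_1, ..., y_n)` in integers, `x ≥ 1`, of the inequality
`0 < max |x ξ ^ j - y_j| ≤ x ^ (-t)` (the maximum over `1 ≤ j ≤ n`). -/
def solutions (n : ℕ) (ξ t : ℝ) : Set (ℕ × (Fin n → ℤ)) :=
  {p | 1 ≤ p.1 ∧ (∃ j : Fin n, (p.1 : ℝ) * ξ ^ ((j : ℕ) + 1) - (p.2 j : ℝ) ≠ 0) ∧
    ∀ j : Fin n, |(p.1 : ℝ) * ξ ^ ((j : ℕ) + 1) - (p.2 j : ℝ)| ≤ (p.1 : ℝ) ^ (-t)}

/-- The exponent `λ_n(ξ)` of simultaneous approximation of `ξ, ξ ^ 2, ..., ξ ^ n`. -/
noncomputable def lam (n : ℕ) (ξ : ℝ) : EReal :=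
  sSup {l : EReal | ∃ t : ℝ, l = (t : EReal) ∧ (solutions n ξ t).Infinite}

/-- The uniform exponent `ŵ_n(ξ)` of approximation by integer polynomials: the supremum of the
reals `t` such that for all large `H` there is an integer polynomial `P` of degree at most `n`,
with coefficients of absolute value at most `H`, and `0 < |P(ξ)| ≤ H ^ (-t)`. -/
noncomputable def wHat (n : ℕ) (ξ : ℝ) : EReal :=
  sSup {l : EReal | ∃ t : ℝ, l = (t : EReal) ∧ ∃ H₀ : ℝ, ∀ H : ℝ, H₀ ≤ H →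
    ∃ P : Polynomial ℤ, P.natDegree ≤ n ∧ (∀ i, |(P.coeff i : ℝ)| ≤ H) ∧
      0 < |Polynomial.aeval ξ P| ∧ |Polynomial.aeval ξ P| ≤ H ^ (-t)}

theorem finite_fibre (n : ℕ) (ξ t : ℝ) (x : ℕ) :
    {y : Fin n → ℤ | ∀ j : Fin n, |(x : ℝ) * ξ ^ ((j : ℕ) + 1) - (y j : ℝ)| ≤ (x : ℝ) ^ (-t)}.Finite := by
  have h : {y : Fin n → ℤ | ∀ j : Fin n,
      |(x : ℝ) * ξ ^ ((j : ℕ) + 1) - (y j : ℝ)| ≤ (x : ℝ) ^ (-t)} ⊆
      Set.univ.pi (fun j : Fin n => Set.Icc ⌊(x : ℝ) * ξ ^ ((j : ℕ) + 1) - (x : ℝ) ^ (-t)⌋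
        ⌈(x : ℝ) * ξ ^ ((j : ℕ) + 1) + (x : ℝ) ^ (-t)⌉) := by
    intro y hy j _
    have h1 := abs_le.1 (hy j)
    constructor
    · exact Int.floor_le_iff.2 (by linarith [h1.2])
    · exact Int.le_ceil_iff.2 (by linarith [h1.1])
  exact (Set.Finite.pi (fun j => Set.finite_Icc _ _)).subset h

theorem solutions_infinite_iff (n : ℕ) (hn : 1 ≤ n) (ξ t : ℝ) (hξ : Irrational ξ) :
    (solutions n ξ t).Infinite ↔ (S ξ n t).Infinite := by
  constructor
  · intro h hS
    apply h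
    have hsub : solutions n ξ t ⊆ ⋃ x ∈ S ξ n t, (fun y => (x, y)) ''
        {y : Fin n → ℤ | ∀ j : Fin n,
          |(x : ℝ) * ξ ^ ((j : ℕ) + 1) - (y j : ℝ)| ≤ (x : ℝ) ^ (-t)} := by
      rintro ⟨x, y⟩ ⟨hx, -, hy⟩
      simp only [Set.mem_iUnion]
      refine ⟨x, ⟨hx, fun j hj => ?_⟩, y, hy, rfl⟩
      rw [Finset.mem_Icc] at hj
      have h1 := hy ⟨j - 1, by omega⟩
      have h2 : (j - 1) + 1 = j := by omega
      simp only [h2] at h1
      exact (round_le _ _).trans h1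
    exact (hS.biUnion (fun x _ => (finite_fibre n ξ t x).image _)).subset hsub
  · intro h
    have hinj : Set.InjOn (fun x : ℕ => ((x, fun j : Fin n => round ((x : ℝ) * ξ ^ ((j : ℕ) + 1))) :
        ℕ × (Fin n → ℤ))) (S ξ n t) := fun x _ y _ hxy => congrArg Prod.fst hxy
    refine (h.image hinj).mono ?_
    rintro _ ⟨x, ⟨hx, hxj⟩, rfl⟩
    refine ⟨hx, ⟨⟨0, hn⟩, ?_⟩, fun j => ?_⟩
    · have h1 : Irrational ((x : ℝ) * ξ) := hξ.natCast_mul (by omega)
      have h2 := h1.ne_int (round ((x : ℝ) * ξ))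
      simpa [sub_ne_zero] using h2
    · exact hxj (j + 1) (Finset.mem_Icc.2 ⟨by omega, by omega⟩)

theorem le_lam (n : ℕ) (hn : 1 ≤ n) (ξ t : ℝ) (hξ : Irrational ξ) (h : (S ξ n t).Infinite) :
    (t : EReal) ≤ lam n ξ :=
  le_sSup ⟨t, rfl, (solutions_infinite_iff n hn ξ t hξ).2 h⟩

theorem lam_nonneg (n : ℕ) (hn : 1 ≤ n) (ξ : ℝ) (hξ : Irrational ξ) : 0 ≤ lam n ξ := by
  have h : (S ξ n 0).Infinite := by
    apply Set.infinite_of_forall_exists_gt
    intro N
    refine ⟨N + 1, ⟨Nat.succ_pos N, ?_⟩, Nat.lt_succ_self N⟩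
    intro j _
    calc _ ≤ (1 / 2 : ℝ) := abs_sub_round _
      _ ≤ 1 := by norm_num
      _ = _ := by simp
  simpa using le_lam n hn ξ 0 hξ h

theorem limit_w (W t M k : ℝ) (hW : 0 < W)
    (h : ∀ w, 0 < w → w < W → w * t - k ≤ M * (w + k)) : W * t - k ≤ M * (W + k) := by
  by_contra hcon
  push Not at hcon
  set δ : ℝ := (W * t - k - M * (W + k)) / (2 * (|t - M| + 1)) with hδ
  have hpos : 0 < |t - M| + 1 := by positivity
  have hδpos : 0 < δ := by
    rw [hδ]
    apply div_pos <;> linarith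
  have hδ2 : δ * (2 * (|t - M| + 1)) = W * t - k - M * (W + k) := by
    rw [hδ]
    field_simp
  have h1 := h (max (W / 2) (W - δ)) (lt_of_lt_of_le (by linarith) (le_max_left _ _))
    (max_lt (by linarith) (by linarith))
  set w := max (W / 2) (W - δ) with hw
  have h2 : W - w ≤ δ := by
    have := le_max_right (W / 2) (W - δ)
    linarith
  have h3 : 0 ≤ W - w := by
    have : w ≤ W := max_le (by linarith) (by linarith)
    linarith
  have h4 : (W - w) * (t - M) ≤ δ * |t - M| :=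
    (mul_le_mul_of_nonneg_left (le_abs_self _) h3).trans
      (mul_le_mul_of_nonneg_right h2 (abs_nonneg _))
  nlinarith

/-- For a real `W > 0` all smaller positive reals of which are exponents of uniform
approximation, the transfer inequality holds. -/
theorem transfer_lam (n k : ℕ) (hn : 1 ≤ n) (ξ : ℝ) (hξ : Irrational ξ) (W : ℝ) (hW : 0 < W)
    (hU : ∀ w, 0 < w → w < W → Unif ξ n w) :
    ((W : EReal) * lam n ξ - (k : ℝ)) / ((W + k : ℝ) : EReal) ≤ lam (n + k) ξ := by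
  have hnk : 1 ≤ n + k := by omega
  have hk0 : (0 : ℝ) ≤ k := Nat.cast_nonneg k
  rcases eq_or_ne (lam (n + k) ξ) ⊤ with htop | htop
  · rw [htop]
    exact le_top
  have hbot : lam (n + k) ξ ≠ ⊥ := by
    have := lam_nonneg (n + k) hnk ξ hξ
    intro h
    rw [h] at this
    exact absurd this (by simp)
  obtain ⟨M, hM⟩ : ∃ M : ℝ, (M : EReal) = lam (n + k) ξ := ⟨_, EReal.coe_toReal htop hbot⟩
  have key : ∀ t : ℝ, (S ξ n t).Infinite → W * t - k ≤ M * (W + k) := by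
    intro t ht
    refine limit_w W t M k hW (fun w hw0 hwW => ?_)
    have hwk : 0 < w + k := by linarith
    have h1 : (w * t - k) / (w + k) ≤ M := by
      by_contra hcon
      push Not at hcon
      obtain ⟨μ, hμ1, hμ2⟩ := exists_between hcon
      have h2 := le_lam (n + k) hnk ξ μ hξ (transfer ξ n k w t μ hn hw0 (hU w hw0 hwW) ht hμ2)
      rw [← hM, EReal.coe_le_coe_iff] at h2
      linarith
    rwa [div_le_iff₀ hwk] at h1
  have hL : lam n ξ ≤ (((M * (W + k) + k) / W : ℝ) : EReal) := by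
    refine sSup_le ?_
    rintro _ ⟨t, rfl, ht⟩
    have h1 := key t ((solutions_infinite_iff n hn ξ t hξ).1 ht)
    rw [EReal.coe_le_coe_iff, le_div_iff₀ hW]
    linarith
  have htop' : lam n ξ ≠ ⊤ := by
    intro h
    rw [h] at hL
    exact absurd hL (by simp)
  have hbot' : lam n ξ ≠ ⊥ := by
    have := lam_nonneg n hn ξ hξ
    intro h
    rw [h] at this
    exact absurd this (by simp)
  obtain ⟨L, hL'⟩ : ∃ L : ℝ, (L : EReal) = lam n ξ := ⟨_, EReal.coe_toReal htop' hbot'⟩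
  rw [← hL', EReal.coe_le_coe_iff, le_div_iff₀ hW] at hL
  rw [← hL', ← hM, ← EReal.coe_mul, ← EReal.coe_sub, ← EReal.coe_div, EReal.coe_le_coe_iff,
    div_le_iff₀ (by linarith)]
  linarith

/-- A uniform exponent of polynomial approximation in the sense of `Unif` is bounded by `ŵ_n`. -/
theorem le_wHat (n : ℕ) (ξ t : ℝ) (hξ : Transcendental ℚ ξ) (h : Unif ξ n t) :
    (t : EReal) ≤ wHat n ξ := by
  obtain ⟨H₀, hH₀⟩ := h
  refine le_sSup ⟨t, rfl, max H₀ 0, fun H hH => ?_⟩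
  have hH0 : 0 ≤ H := (le_max_right _ _).trans hH
  obtain ⟨a, ⟨i0, hi0, hai0⟩, haH, hs⟩ := hH₀ H ((le_max_left _ _).trans hH)
  have hξ' : Transcendental ℤ ξ := fun halg =>
    hξ (IsAlgebraic.extendScalars (RingHom.injective_int (algebraMap ℤ ℚ)) halg)
  let P : Polynomial ℤ := ∑ i ∈ range (n + 1), Polynomial.C (a i) * Polynomial.X ^ i
  have hcoeff : ∀ i, P.coeff i = if i ≤ n then a i else 0 := by
    intro i
    simp only [P, Polynomial.finsetSum_coeff, Polynomial.coeff_C_mul, Polynomial.coeff_X_pow]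
    by_cases hi : i ≤ n
    · rw [if_pos hi, Finset.sum_eq_single_of_mem i (Finset.mem_range.2 (by omega))]
      · simp
      · intro j _ hji
        simp [hji.symm]
    · rw [if_neg hi]
      apply Finset.sum_eq_zero
      intro j hj
      rw [Finset.mem_range] at hj
      have : i ≠ j := by omega
      simp [this]
  have hP0 : P ≠ 0 := by
    intro h0
    have h1 := hcoeff i0
    rw [h0, if_pos hi0] at h1
    exact hai0 (by simpa using h1.symm)
  have heval : Polynomial.aeval ξ P = ∑ i ∈ range (n + 1), (a i : ℝ) * ξ ^ i := by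
    simp [P, map_sum]
  refine ⟨P, ?_, fun i => ?_, ?_, ?_⟩
  · rw [Polynomial.natDegree_le_iff_coeff_eq_zero]
    intro N hN
    rw [hcoeff, if_neg (by omega)]
  · rw [hcoeff]
    split_ifs
    · exact haH i
    · simpa using hH0
  · rw [abs_pos]
    intro h0
    exact hP0 ((transcendental_iff.1 hξ') P h0)
  · rw [heval]
    exact hs

/-- Every real below `ŵ_n` is a uniform exponent in the sense of `Unif`. -/
theorem unif_of_lt_wHat (n : ℕ) (ξ w : ℝ) (h : (w : EReal) < wHat n ξ) : Unif ξ n w := by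
  obtain ⟨_, ⟨t, rfl, H₀, hH₀⟩, ht⟩ := lt_sSup_iff.1 h
  rw [EReal.coe_lt_coe_iff] at ht
  refine ⟨max H₀ 1, fun H hH => ?_⟩
  have hH1 : 1 ≤ H := (le_max_right _ _).trans hH
  obtain ⟨P, hdeg, hcoeff, hpos, hle⟩ := hH₀ H ((le_max_left _ _).trans hH)
  have hP0 : P ≠ 0 := by
    rintro rfl
    simp at hpos
  refine ⟨fun i => P.coeff i, ⟨P.natDegree, hdeg, ?_⟩, hcoeff, ?_⟩
  · exact Polynomial.leadingCoeff_ne_zero.2 hP0
  · have h1 : Polynomial.aeval ξ P = ∑ i ∈ range (n + 1), (P.coeff i : ℝ) * ξ ^ i := by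
      rw [Polynomial.aeval_eq_sum_range' (n := n + 1) (by omega)]
      apply Finset.sum_congr rfl
      intro i _
      rw [zsmul_eq_mul]
    rw [← h1]
    exact hle.trans (Real.rpow_le_rpow_of_exponent_le hH1 (by linarith))

theorem natCast_le_wHat (n : ℕ) (hn : 1 ≤ n) (ξ : ℝ) (hξ : Transcendental ℚ ξ) :
    ((n : ℝ) : EReal) ≤ wHat n ξ := by
  refine le_of_forall_lt (fun c hc => ?_)
  obtain ⟨t, ht1, ht2⟩ := EReal.lt_iff_exists_real_btwn.1 hc
  rw [EReal.coe_lt_coe_iff] at ht2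
  exact ht1.trans_le (le_wHat n ξ t hξ (unif_of_lt ξ n t hn ht2))

/-- For every transcendental real `ξ` and all `1 ≤ n ≤ m`:
`λ_m(ξ) ≥ (n λ_n(ξ) - m + n) / m`, and even
`λ_m(ξ) ≥ (ŵ_n(ξ) λ_n(ξ) - m + n) / (ŵ_n(ξ) + m - n)`. -/
theorem result (m n : ℕ) (hn : 1 ≤ n) (hnm : n ≤ m) (ξ : ℝ) (hξ : Transcendental ℚ ξ) :
    ((n : EReal) * lam n ξ - (m : EReal) + (n : EReal)) / (m : EReal) ≤ lam m ξ ∧
    (wHat n ξ * lam n ξ - (m : EReal) + (n : EReal)) / (wHat n ξ + (m : EReal) - (n : EReal))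
      ≤ lam m ξ := by
  obtain ⟨k, rfl⟩ := Nat.exists_eq_add_of_le hnm
  have hirr : Irrational ξ := hξ.irrational
  have hn0 : (0 : ℝ) < n := by exact_mod_cast hn
  have hcastn : (n : EReal) = ((n : ℝ) : EReal) := rfl
  have hcastm : ((n + k : ℕ) : EReal) = (((n : ℝ) + k : ℝ) : EReal) := by
    rw [show (((n + k : ℕ) : EReal)) = (((n + k : ℕ) : ℝ) : EReal) from rfl]
    push_cast
    rfl
  have hlam0 := lam_nonneg n hn ξ hirr
  have hbot : lam n ξ ≠ ⊥ := by
    intro h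
    rw [h] at hlam0
    exact absurd hlam0 (by simp)
  -- the numerators
  have hnum : ∀ W : ℝ, 0 < W → (W : EReal) * lam n ξ - (((n : ℝ) + k : ℝ) : EReal) + ((n : ℝ) : EReal)
      = (W : EReal) * lam n ξ - ((k : ℝ) : EReal) := by
    intro W hW
    induction hl : lam n ξ with
    | bot => exact absurd hl hbot
    | top =>
      rw [EReal.coe_mul_top_of_pos hW]
      simp only [EReal.top_sub_coe, EReal.top_add_coe]
    | coe L =>
      rw [← EReal.coe_mul, ← EReal.coe_sub, ← EReal.coe_sub, ← EReal.coe_add]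
      congr 1
      ring
  refine ⟨?_, ?_⟩
  · rw [hcastn, hcastm, hnum n hn0]
    exact transfer_lam n k hn ξ hirr n hn0 (fun w _ hw => unif_of_lt ξ n w hn hw)
  · rw [hcastn, hcastm]
    have hge := natCast_le_wHat n hn ξ hξ
    induction hw : wHat n ξ with
    | bot =>
      rw [hw] at hge
      exact absurd hge (not_le.2 (EReal.bot_lt_coe _))
    | top =>
      rw [show (⊤ : EReal) + (((n : ℝ) + k : ℝ) : EReal) - ((n : ℝ) : EReal) = ⊤ by
        rw [EReal.top_add_coe, EReal.top_sub_coe], EReal.div_top]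
      exact lam_nonneg (n + k) (by omega) ξ hirr
    | coe W =>
      have hWn : (n : ℝ) ≤ W := by
        rw [hw] at hge
        exact EReal.coe_le_coe_iff.1 hge
      have hW0 : 0 < W := by linarith
      rw [hnum W hW0, ← EReal.coe_add, ← EReal.coe_sub,
        show W + ((n : ℝ) + k) - n = W + k by ring]
      refine transfer_lam n k hn ξ hirr W hW0 (fun w _ hwW => unif_of_lt_wHat n ξ w ?_)
      rw [hw]
      exact EReal.coe_lt_coe_iff.2 hwW

end Pool.Agent.Work.MP_637dc3_nt.Lam
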